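import Pool.Agent.H16.Spn4

/-!
# MP_8dad81_al, Q1: every element of the compact symplectic group `Sp(n)`, `n ≥ 2`,
is a product of five involutions of `Sp(n)`

The proof: choose an involution `K` in `Sp(n)` such that `A K` has eigenvalue one; diagonalise
`A K` inside `Sp(n)` with that eigenvalue in last place; pair the remaining eigenvalues, and write
each pair block as a product of four monomial involutions.
-/

namespace Pool.Agent.Results.MP_8dad81_al.FiveInvolutions

open Matrix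

/-- The matrix `J` with blocks `0, I, -I, 0`. -/
def J (n : ℕ) : Matrix (Fin n ⊕ Fin n) (Fin n ⊕ Fin n) ℂ :=
  Matrix.fromBlocks 0 1 (-1) 0

/-- `Sp(n)`: the complex matrices of size `2n` that are unitary and satisfy `Aᵗ J A = J`. -/
def Sp (n : ℕ) : Set (Matrix (Fin n ⊕ Fin n) (Fin n ⊕ Fin n) ℂ) :=
  {A | A ∈ Matrix.unitaryGroup (Fin n ⊕ Fin n) ℂ ∧ Aᵀ * J n * A = J n}

/-- Q1: for every `n ≥ 2`, every element of `Sp(n)` is a product of five involutions of
`Sp(n)`. -/
theorem result : ∀ n : ℕ, 2 ≤ n → ∀ A ∈ Sp n,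
    ∃ g : Fin 5 → Matrix (Fin n ⊕ Fin n) (Fin n ⊕ Fin n) ℂ,
      (∀ i, g i ∈ Sp n ∧ g i * g i = 1) ∧ A = g 0 * g 1 * g 2 * g 3 * g 4 := by
  intro n hn A hA
  have hA' : Pool.Agent.H16.Spn.IsSp n A := hA
  obtain ⟨I1, I2, I3, I4, I5, h1, h2, h3, h4, h5, h⟩ := Pool.Agent.H16.Spn.five hA' hn
  refine ⟨![I1, I2, I3, I4, I5], ?_, ?_⟩
  · intro i
    fin_cases i
    · exact h1
    · exact h2
    · exact h3
    · exact h4
    · exact h5
  · exact h

end Pool.Agent.Results.MP_8dad81_al.FiveInvolutions
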